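import Mathlib
import Pool.Agent.R528.RM.And

set_option autoImplicit false

/-!
# Andrica's differences in random models of the primes

The integers are decided one after the other, only integers coprime to a fixed `Q` can be chosen, and
the conditional probability of choosing `n + 1` (coprime to `Q`) given the past is asymptotic to
`(Q / φ(Q)) / log n`; no independence is assumed (for `Q = 1` Cramér's model and the Hawkins random
sieve are examples).

Almost surely, for every exponent `0 < a < 1` (`a = 1/2` is Andrica's case):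

* the supremum of `q ^ a - p ^ a` over all consecutive members `p < q` with `p ≥ x` is asymptotic to
  `a x ^ (a - 1) log² x`; for `a = 1/2` this is `log² x / (2 √x)`, so that `√q - √p → 0` with the
  exact order of the largest differences;
* for every `0 < c < 1` the number of consecutive members `p < q`, `p ≤ x`, for which `q ^ a - p ^ a`
  exceeds `c a p ^ (a - 1) log² p` is `x ^ (1 - c + o(1))`.
-/

open MeasureTheory Filter
open scoped Topology

namespace Pool.Agent.Results.MP_82fd4a_nt.AndricaDifferencesSievedModels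

/-- the member number `n` (counted from `0`) of the set `S` of natural numbers -/
noncomputable def member (S : Set ℕ) (n : ℕ) : ℕ := Nat.nth (fun a => a ∈ S) n

/-- the difference of the `a`-th powers of the members number `n + 1` and `n` -/
noncomputable def diff (S : Set ℕ) (a : ℝ) (n : ℕ) : ℝ :=
  (member S (n + 1) : ℝ) ^ a - (member S n : ℝ) ^ a

/-- the supremum of the differences `q ^ a - p ^ a` over the consecutive members `p < q` with
`p ≥ x` -/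
noncomputable def supDiff (S : Set ℕ) (a : ℝ) (x : ℕ) : ℝ :=
  sSup {d : ℝ | ∃ n, x ≤ member S n ∧ d = diff S a n}

/-- the number of consecutive members `p < q`, `p ≤ x`, with
`q ^ a - p ^ a > c a p ^ (a - 1) log² p` -/
noncomputable def large (S : Set ℕ) (a c : ℝ) (x : ℕ) : ℕ :=
  {n : ℕ | member S n ≤ x ∧
    c * a * (member S n : ℝ) ^ (a - 1) * Real.log (member S n) ^ 2 < diff S a n}.ncard

open Pool.Agent.R528.RM

lemma large_eq (S : Set ℕ) (a c : ℝ) (x : ℕ) : large S a c x =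
    {n : ℕ | pn S n ≤ x ∧ c * a * (pn S n : ℝ) ^ (a - 1) * Real.log (pn S n) ^ 2 < (pn S (n + 1) : ℝ) ^ a - (pn S n : ℝ) ^ a}.ncard := rfl

/-- a limit from bounds -/
lemma lim_of {f g : ℕ → ℝ} (hg : ∀ᶠ x in atTop, 0 < g x) (h : ∀ η : ℝ, 0 < η → η < 1 / 4 → ∀ᶠ x in atTop, (1 - 4 * η) * g x ≤ f x ∧ f x ≤ (1 + η) * g x) :
    Tendsto (fun x => f x / g x) atTop (𝓝 1) := by
  rw [Metric.tendsto_nhds]
  intro ε hε
  set η : ℝ := min (ε / 8) (1 / 8) with hη
  have h0 : 0 < η := lt_min (by linarith) (by norm_num)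
  have h1 : η ≤ ε / 8 := min_le_left _ _
  have h2 : η ≤ 1 / 8 := min_le_right _ _
  filter_upwards [h η h0 (by linarith), hg] with x hx hgx
  rw [Real.dist_eq, abs_lt]
  obtain ⟨g1, g2⟩ := hx
  constructor
  · have : 1 - 4 * η ≤ f x / g x := by rwa [le_div_iff₀ hgx]
    linarith
  · have : f x / g x ≤ 1 + η := by rwa [div_le_iff₀ hgx]
    linarith

/-- a limit of exponents from bounds -/
lemma exp_of {f : ℕ → ℕ} {c : ℝ} (hc1 : c < 1) (h : ∀ η : ℝ, 0 < η → η < (1 - c) / 4 → ∀ᶠ x : ℕ in atTop, (x : ℝ) ^ (1 - c - 3 * η) ≤ f x ∧ (f x : ℝ) ≤ (x : ℝ) ^ (1 - c + 2 * η)) :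
    Tendsto (fun x => Real.log (f x) / Real.log x) atTop (𝓝 (1 - c)) := by
  rw [Metric.tendsto_nhds]
  intro ε hε
  set η : ℝ := min (ε / 8) ((1 - c) / 8) with hη
  have h0 : 0 < η := lt_min (by linarith) (by linarith)
  have h1 : η ≤ ε / 8 := min_le_left _ _
  have h2 : η ≤ (1 - c) / 8 := min_le_right _ _
  filter_upwards [h η h0 (by linarith), ev_log 1, eventually_gt_atTop 1] with x hx hl hx1
  obtain ⟨g1, g2⟩ := hx
  have hx0 : (0 : ℝ) < x := by exact_mod_cast (by omega : 0 < x)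
  have hL : 0 < Real.log (x : ℝ) := by linarith
  have hf : (0 : ℝ) < f x := lt_of_lt_of_le (Real.rpow_pos_of_pos hx0 _) g1
  have g3 := Real.log_le_log (Real.rpow_pos_of_pos hx0 _) g1
  have g4 := Real.log_le_log hf g2
  rw [Real.log_rpow hx0] at g3 g4
  rw [Real.dist_eq, abs_lt]
  constructor
  · have : 1 - c - 3 * η ≤ Real.log (f x) / Real.log x := by rwa [le_div_iff₀ hL]
    linarith
  · have : Real.log (f x) / Real.log x ≤ 1 - c + 2 * η := by rwa [div_le_iff₀ hL]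
    linarith

end Pool.Agent.Results.MP_82fd4a_nt.AndricaDifferencesSievedModels

open Pool.Agent.Results.MP_82fd4a_nt.AndricaDifferencesSievedModels

/-- Let `A n` be the event that `n` belongs to a random set adapted to a filtration `ℱ`, let
`Q ≥ 1`, let no integer which is not coprime to `Q` be chosen, and let the conditional probability of
`A (n + 1)` given `ℱ n`, times `log n`, tend to `Q / φ(Q)` along the `n` with `n + 1` coprime to `Q`,
almost surely.  Then almost surely the random set is infinite and, for every `0 < a < 1`: the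
supremum of `q ^ a - p ^ a` over the consecutive members `p < q` with `p ≥ x`, divided by
`a x ^ (a - 1) log² x`, tends to `1`; and for every `0 < c < 1` the number of consecutive members
`p < q`, `p ≤ x`, with `q ^ a - p ^ a > c a p ^ (a - 1) log² p` is `x ^ (1 - c + o(1))`. -/
theorem Pool.Agent.Results.MP_82fd4a_nt.AndricaDifferencesSievedModels.result
    {Ω : Type} [mΩ : MeasurableSpace Ω] (μ : Measure Ω) [IsProbabilityMeasure μ]
    (ℱ : Filtration ℕ mΩ) (A : ℕ → Set Ω) (hA : ∀ n, MeasurableSet[ℱ n] (A n))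
    (Q : ℕ) (hQ : 0 < Q) (hcop : ∀ n, ¬ Nat.Coprime n Q → A n = ∅)
    (hd : ∀ᵐ ω ∂μ, Tendsto (fun n : ℕ =>
      (μ[(A (n + 1)).indicator (fun _ => (1 : ℝ)) | ℱ n]) ω * Real.log n)
      (atTop ⊓ 𝓟 {n : ℕ | Nat.Coprime (n + 1) Q}) (𝓝 ((Q : ℝ) / Nat.totient Q))) :
    ∀ᵐ ω ∂μ, {n | ω ∈ A n}.Infinite ∧ ∀ a : ℝ, 0 < a → a < 1 →
      Tendsto (fun x : ℕ => supDiff {n | ω ∈ A n} a x / (a * (x : ℝ) ^ (a - 1) * Real.log x ^ 2)) atTop (𝓝 1) ∧
      ∀ c : ℝ, 0 < c → c < 1 →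
        Tendsto (fun x : ℕ => Real.log (large {n | ω ∈ A n} a c x) / Real.log x) atTop (𝓝 (1 - c)) := by
  have hprof := Pool.Agent.R528.RM.dens_profile (μ := μ) (ℱ := ℱ) hA Q hQ hcop hd
  have hm1 : ∀ m : ℕ, 0 < 1 / ((m : ℝ) + 5) ∧ 1 / ((m : ℝ) + 5) < 1 / 4 := fun m => by
    have hm : (0 : ℝ) ≤ m := Nat.cast_nonneg _
    exact ⟨by positivity, by rw [div_lt_div_iff₀ (by positivity) (by norm_num)]; linarith⟩
  have hgap : ∀ᵐ ω ∂μ, ∀ m : ℕ, ∀ᶠ y : ℕ in atTop, ∃ n : ℕ, y < n ∧ (n : ℝ) ≤ y + (1 + 1 / ((m : ℝ) + 5)) * Real.log y ^ 2 ∧ ω ∈ A n := by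
    rw [ae_all_iff]
    intro m
    exact Pool.Agent.R528.RM.norun (μ := μ) hA hQ hprof (hm1 m).1 (by linarith [(hm1 m).2])
  have hmany : ∀ m : ℕ, ∃ κ : ℝ, 0 < κ ∧ ∀ᵐ ω ∂μ, ∀ᶠ y : ℕ in atTop,
      κ * Real.log y < Pool.Agent.R528.RM.cnt A y ⌊(1 + 1 / ((m : ℝ) + 5)) * Real.log y ^ 2⌋₊ ω := by
    intro m
    exact Pool.Agent.R528.RM.many_in_window hA hQ hprof (by linarith [(hm1 m).1])
  choose κ hκ0 hκ using hmany
  have hocc : ∀ᵐ ω ∂μ, ∀ m : ℕ, {n | ω ∈ A n}.Infinite ∧ ∀ᶠ x : ℕ in atTop, ∀ t : ℕ → ℕ, (∀ i < 1, 1 ≤ t i) →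
      ((∃ a, ∀ i ≤ 1, Nat.Coprime (a + ∑ j ∈ Finset.range i, t j) Q) → (∑ j ∈ Finset.range 1, (t j : ℝ)) ≤ (1 - 1 / ((m : ℝ) + 5)) * Real.log x ^ 2 →
        (x : ℝ) ^ (1 - (∑ j ∈ Finset.range 1, (t j : ℝ)) / Real.log x ^ 2 - 1 / ((m : ℝ) + 5)) ≤ (Pool.Agent.R528.RM.occ {n | ω ∈ A n} 1 t x).ncard) ∧
      ((∑ j ∈ Finset.range 1, (t j : ℝ)) ≤ Real.log x ^ 2 →
        ((Pool.Agent.R528.RM.occ {n | ω ∈ A n} 1 t x).ncard : ℝ) ≤ (x : ℝ) ^ (1 - (∑ j ∈ Finset.range 1, (t j : ℝ)) / Real.log x ^ 2 + 1 / ((m : ℝ) + 5))) ∧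
      ((1 + 1 / ((m : ℝ) + 5)) * Real.log x ^ 2 ≤ ∑ j ∈ Finset.range 1, (t j : ℝ) → Pool.Agent.R528.RM.occ {n | ω ∈ A n} 1 t x = ∅) := by
    rw [ae_all_iff]
    intro m
    exact Pool.Agent.R528.RM.occ_law (μ := μ) (ℱ := ℱ) hA hQ hprof (hm1 m).1 (by linarith [(hm1 m).2]) le_rfl
  have hweight : ∀ᵐ ω ∂μ, ∀ m : ℕ, {n | ω ∈ A n}.Infinite ∧ ∃ (Z : ℝ) (N : ℕ), 0 ≤ Z ∧ ∀ V : Finset ℕ, (∀ n ∈ V, N ≤ n) →
      ∑ n ∈ V, (Pool.Agent.R528.RM.pn {n | ω ∈ A n} n : ℝ) ^ (-(1 + 1 / ((m : ℝ) + 5))) *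
        Real.exp (((Pool.Agent.R528.RM.pn {n | ω ∈ A n} (n + 1) : ℝ) - Pool.Agent.R528.RM.pn {n | ω ∈ A n} n) / Real.log (Pool.Agent.R528.RM.pn {n | ω ∈ A n} n)) ≤ Z := by
    rw [ae_all_iff]
    intro m
    exact Pool.Agent.R528.RM.gap_weight (μ := μ) (ℱ := ℱ) hA hQ hprof (hm1 m).1 (by linarith [(hm1 m).2])
  have hlocal : ∀ᵐ ω ∂μ, ∀ m : ℕ, {n | ω ∈ A n}.Infinite ∧ ∀ᶠ x : ℕ in atTop, ∀ t : ℕ → ℕ, (∀ i < 1, 1 ≤ t i) →
      (∃ a, ∀ i ≤ 1, Nat.Coprime (a + ∑ j ∈ Finset.range i, t j) Q) → (∑ j ∈ Finset.range 1, (t j : ℝ)) ≤ (1 - 1 / ((m : ℝ) + 5)) * Real.log x ^ 2 →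
      ∃ n, x ≤ Pool.Agent.R528.RM.pn {n | ω ∈ A n} n ∧ (Pool.Agent.R528.RM.pn {n | ω ∈ A n} (n + 1) : ℝ) ≤ x + (x : ℝ) ^ ((∑ j ∈ Finset.range 1, (t j : ℝ)) / Real.log x ^ 2 + 1 / ((m : ℝ) + 5)) ∧
        ∀ i < 1, Pool.Agent.R528.RM.pn {n | ω ∈ A n} (n + i + 1) = Pool.Agent.R528.RM.pn {n | ω ∈ A n} (n + i) + t i := by
    rw [ae_all_iff]
    intro m
    exact Pool.Agent.R528.RM.local_gap (μ := μ) (ℱ := ℱ) hA hQ hprof (hm1 m).1 (by linarith [(hm1 m).2]) le_rfl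
  filter_upwards [hgap, ae_all_iff.2 hκ, hocc, hweight, hlocal] with ω h1 h2 h3 h4 h5
  set S : Set ℕ := {n | ω ∈ A n} with hS
  have hinf : S.Infinite := (h3 0).1
  have hmono := Pool.Agent.R528.RM.nth_mono hinf
  have hsum : ∀ m : ℕ, ∀ᶠ n : ℕ in atTop, (Pool.Agent.R528.RM.pn S (n + 1) : ℝ) ≤
      Pool.Agent.R528.RM.pn S n + (1 + 1 / ((m : ℝ) + 5)) * Real.log (Pool.Agent.R528.RM.pn S n) ^ 2 := fun m =>
    Pool.Agent.R528.RM.sum_gaps_le hinf (hκ0 m) (by linarith [(hm1 m).1]) (h2 m) 1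
  -- small parameters
  have hpar : ∀ η : ℝ, 0 < η → ∃ m : ℕ, 1 / ((m : ℝ) + 5) ≤ η := by
    intro η hη
    obtain ⟨m, hm⟩ := exists_nat_gt (1 / η)
    rw [div_lt_iff₀ hη] at hm
    have hm0 : (0 : ℝ) ≤ m := Nat.cast_nonneg _
    exact ⟨m, by rw [div_le_iff₀ (by positivity)]; nlinarith⟩
  refine ⟨hinf, fun a ha0 ha1 => ⟨?_, fun c hc0 hc1 => ?_⟩⟩
  · -- the supremum
    have hg0 : ∀ᶠ x : ℕ in atTop, 0 < a * (x : ℝ) ^ (a - 1) * Real.log x ^ 2 := by
      filter_upwards [Pool.Agent.R528.RM.ev_log 1, eventually_gt_atTop 0] with x g1 g2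
      have hx0 : (0 : ℝ) < x := by exact_mod_cast g2
      have : 0 < Real.log (x : ℝ) := by linarith
      positivity
    apply lim_of hg0
    intro η hη0 hη1
    obtain ⟨m, hm⟩ := hpar η hη0
    set e : ℝ := 1 / ((m : ℝ) + 5) with he
    have he0 : 0 < e := (hm1 m).1
    have he1 : e < 1 / 4 := (hm1 m).2
    have hup := Pool.Agent.R528.RM.and_upper hinf he0 (hsum m) ha0 ha1
    have hlow := Pool.Agent.R528.RM.and_lower hinf he0 he1 (by
      filter_upwards [(h5 m).2, Pool.Agent.R528.RM.mult_param hQ (show 0 < 1 - 3 * e by linarith) (show 1 - 3 * e < 1 - 2 * e by linarith),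
        Pool.Agent.R528.RM.ev_log 1, eventually_gt_atTop 1] with x g1 ⟨t, t1, t2, t3, t4⟩ g2 g3
      have hL2 : 0 < Real.log (x : ℝ) ^ 2 := by positivity
      have hx1 : (1 : ℝ) ≤ x := by exact_mod_cast g3.le
      obtain ⟨n, n1, n2, n3⟩ := g1 (fun _ => t) (fun _ _ => t1) (Pool.Agent.R528.RM.possible_mult t2) (by
        rw [Finset.sum_range_one]
        exact t4.trans (mul_le_mul_of_nonneg_right (by linarith) hL2.le))
      rw [Finset.sum_range_one] at n2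
      have n3 : Pool.Agent.R528.RM.pn S (n + 1) = Pool.Agent.R528.RM.pn S n + t := n3 0 (by omega)
      refine ⟨n, n1, n2.trans ?_, ?_⟩
      · have : (x : ℝ) ^ ((t : ℝ) / Real.log x ^ 2 + e) ≤ (x : ℝ) ^ (1 - e) := by
          apply Real.rpow_le_rpow_of_exponent_le hx1
          have : (t : ℝ) / Real.log x ^ 2 ≤ 1 - 2 * e := by
            rw [div_le_iff₀ hL2]
            exact t4
          linarith
        linarith
      · rw [n3]
        push_cast
        linarith) ha0 ha1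
    filter_upwards [hup, hlow, hg0] with x g1 ⟨n, n1, n2⟩ g3
    set g : ℝ := a * (x : ℝ) ^ (a - 1) * Real.log x ^ 2 with hg
    have hbdd : ∀ d ∈ {d : ℝ | ∃ n, x ≤ member S n ∧ d = diff S a n}, d ≤ (1 + e) * g := by
      rintro d ⟨n, n1, rfl⟩
      exact g1 n n1
    constructor
    · have h6 : (1 - 4 * e) * g ≤ diff S a n := n2
      have h7 : diff S a n ≤ supDiff S a x := le_csSup ⟨_, hbdd⟩ ⟨n, n1, rfl⟩
      have h8 : (1 - 4 * η) * g ≤ (1 - 4 * e) * g := mul_le_mul_of_nonneg_right (by linarith) g3.le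
      linarith
    · have h7 : supDiff S a x ≤ (1 + e) * g := csSup_le ⟨_, n, n1, rfl⟩ hbdd
      have h8 : (1 + e) * g ≤ (1 + η) * g := mul_le_mul_of_nonneg_right (by linarith) g3.le
      linarith
  · -- the number of large differences
    apply exp_of hc1
    intro η hη0 hη1
    obtain ⟨m, hm⟩ := hpar η hη0
    set e : ℝ := 1 / ((m : ℝ) + 5) with he
    have he0 : 0 < e := (hm1 m).1
    have he1 : e < 1 / 4 := (hm1 m).2
    obtain ⟨_, Z, N, hZ, hV⟩ := h4 m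
    have h2' : ∀ᶠ n : ℕ in atTop, (Pool.Agent.R528.RM.pn S (n + 1) : ℝ) ≤ Pool.Agent.R528.RM.pn S n + 2 * Real.log (Pool.Agent.R528.RM.pn S n) ^ 2 := by
      filter_upwards [hsum m] with n hn
      have : (1 + e) * Real.log (Pool.Agent.R528.RM.pn S n) ^ 2 ≤ 2 * Real.log (Pool.Agent.R528.RM.pn S n) ^ 2 :=
        mul_le_mul_of_nonneg_right (by linarith) (by positivity)
      linarith
    have hup := Pool.Agent.R528.RM.and_count_upper hinf he0 hZ hV ha0 ha1 hc0 hc1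
    have hlow := Pool.Agent.R528.RM.and_count_lower hinf he0 hQ h2' (by
      filter_upwards [(h3 m).2] with x g1 t ht
      exact (g1 t ht).1) ha0 ha1 hc0 (show c + 3 * e < 1 by linarith)
    filter_upwards [hup, hlow, eventually_gt_atTop 0] with x g1 g2 g3
    have hx1 : (1 : ℝ) ≤ x := by exact_mod_cast g3
    rw [large_eq]
    refine ⟨le_trans ?_ g2, g1.trans ?_⟩
    · exact Real.rpow_le_rpow_of_exponent_le hx1 (by linarith)
    · exact Real.rpow_le_rpow_of_exponent_le hx1 (by linarith)
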