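import Pool.Agent.R526.AD.Main

set_option autoImplicit false

/-!
# Andrica's conjecture for primes moved by at most `p^(1-κ)`

Author: helper526.

There are absolute constants `0 < κ < 1` (from Hoheisel's theorem on primes in short intervals) and `K` with the
following property. Every large prime `p` stays where it is with probability `1 - δ`, and with probability `δ` it is
moved to `p + 2 i` with a uniformly random `1 ≤ i ≤ W(p)`, independently of the others; here `0 < δ ≤ 1` is fixed, and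
`W` is any nondecreasing function with `W(p) ≥ p^(1 - κ)`, `2 W(p) ≤ p` and `W(2 n) ≤ D W(n)`; for instance
`W(p) = ⌈p^(1 - κ)⌉`. Let `𝒮` be the resulting random set. Almost surely:

(1) for all large `x` and ALL `K (D² / δ) (log x)² ≤ h ≤ x` the interval `(x, x + h]` contains at least
`(δ / (K D²)) h / log x` elements of `𝒮` (the right order of magnitude);

(2) consecutive elements `a < b` of `𝒮`, `a` large, satisfy `b - a ≤ (K + 1) (D² / δ) (log a)²` (Cramér's bound);

(3) `√b - √a → 0` for consecutive elements `a < b` of `𝒮`, `a → ∞`; in particular Andrica's inequality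
`√b - √a < 1` holds for all of them with finitely many exceptions.

So Andrica's conjecture (for large primes) is true after an arbitrarily rare random perturbation of the primes by a
power of `p` smaller than `p`.

Proof. By Hoheisel's theorem every large odd `m` is hit by a moved prime with probability `≫ δ / log m` (in the mean).
Partition `(x, x + h]` into blocks of length `C log x`; the probability that half of the blocks are avoided by all
the moved primes is at most `2^R exp(-16 R)`, `R` the number of blocks. Borel-Cantelli for all `x` and `h ≤ x`.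
-/

open MeasureTheory ProbabilityTheory Filter Topology

namespace Pool.Agent.Results.MP_82fd4a_nt.AndricaForMovedPrimes

/-- For all large primes `p`: `i p = 0` with probability `1 - δ`, and `i p = k` with probability `δ / W p` for each
`1 ≤ k ≤ W p`; the random variables `i p` are independent. -/
def Moves (δ : ℝ) (W : ℕ → ℕ) (Ω : Type) [MeasurableSpace Ω] (μ : Measure Ω) (i : ℕ → Ω → ℕ) : Prop :=
  (∀ p, Measurable (i p)) ∧ iIndepFun i μ ∧ ∃ p₀ : ℕ, ∀ p : ℕ, p.Prime → p₀ ≤ p →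
    μ.real {w | i p w = 0} = 1 - δ ∧ ∀ k : ℕ, 1 ≤ k → k ≤ W p → μ.real {w | i p w = k} = δ / W p

/-- the set `𝒮` of all `p + 2 * i p`, `p` prime -/
def S {Ω : Type} (i : ℕ → Ω → ℕ) (w : Ω) : Set ℕ := {m : ℕ | ∃ p : ℕ, p.Prime ∧ p + 2 * i p w = m}

/-- `a < b` are consecutive elements of `S` -/
def Consecutive (S : Set ℕ) (a b : ℕ) : Prop := a ∈ S ∧ b ∈ S ∧ a < b ∧ ∀ m, a < m → m < b → m ∉ S

/-- There are `0 < κ < 1` and `K ≥ 1` such that, if `W` is nondecreasing and `W n ≥ n^(1 - κ)`, `2 W n ≤ n`,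
`W (2 n) ≤ D W n` for large `n`, and `0 < δ ≤ 1`, almost surely: (1) for all large `x` and all
`K (D² / δ) (log x)² ≤ h ≤ x` the interval `(x, x + h]` contains at least `(δ / (K D²)) h / log x` elements of `𝒮`;
(2) `b - a ≤ (K + 1) (D² / δ) (log a)²` for all consecutive elements `a < b` of `𝒮` with `a` large; (3) for every
`ε > 0` we have `√b - √a < ε` for all consecutive elements `a < b` of `𝒮` with `a` large. -/
theorem result : ∃ κ K : ℝ, 0 < κ ∧ κ < 1 ∧ 1 ≤ K ∧ ∀ (D δ : ℝ), 1 ≤ D → 0 < δ → δ ≤ 1 → ∀ (W : ℕ → ℕ), Monotone W →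
    (∀ᶠ n : ℕ in atTop, (n : ℝ) ^ (1 - κ) ≤ W n ∧ 2 * W n ≤ n ∧ (W (2 * n) : ℝ) ≤ D * W n) →
    ∀ (Ω : Type) [MeasurableSpace Ω] (μ : Measure Ω) [IsProbabilityMeasure μ] (i : ℕ → Ω → ℕ),
      Moves δ W Ω μ i → ∀ᵐ w ∂μ,
        (∀ᶠ x : ℕ in atTop, ∀ h : ℕ, K * (D ^ 2 / δ) * (Real.log x) ^ 2 ≤ h → h ≤ x →
          δ / (K * D ^ 2) * (h / Real.log x) ≤ ((S i w ∩ Set.Ioc x (x + h)).ncard : ℝ)) ∧
        (∀ᶠ a : ℕ in atTop, ∀ b : ℕ, Consecutive (S i w) a b →
          (b : ℝ) - a ≤ (K + 1) * (D ^ 2 / δ) * (Real.log a) ^ 2) ∧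
        (∀ ε : ℝ, 0 < ε → ∀ᶠ a : ℕ in atTop, ∀ b : ℕ, Consecutive (S i w) a b → Real.sqrt b - Real.sqrt a < ε) := by
  obtain ⟨κ, K, hκ0, hκ1, hK, hU⟩ := Pool.Agent.R526.AD.main
  refine ⟨κ, K, hκ0, hκ1, hK, ?_⟩
  intro D δ hD hδ0 hδ1 W hmono hW Ω _ μ _ i hi
  obtain ⟨h1, h2, p₀, h3⟩ := hi
  have hG : Pool.Agent.R526.UT.Grow κ D W :=
    ⟨hmono, hW.mono fun n h => h.1, hW.mono fun n h => h.2.1, hW.mono fun n h => h.2.2⟩
  have hM : 1 ≤ D ^ 2 / δ := by
    rw [le_div_iff₀ hδ0]
    nlinarith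
  set M := D ^ 2 / δ with hMd
  have hlog : Tendsto (fun n : ℕ => Real.log (n : ℝ)) atTop atTop :=
    Real.tendsto_log_atTop.comp tendsto_natCast_atTop_atTop
  filter_upwards [hU D δ hD hδ0 hδ1 W hG Ω μ i h1 h2 p₀ fun p hp hp0 k hk1 hk2 =>
    (h3 p hp hp0).2 k hk1 hk2] with w hw
  have e1 : ∀ᶠ n : ℕ in atTop, (K + 1) * M * (Real.log n) ^ 2 ≤ n := by
    have h1 := (Real.isLittleO_pow_log_id_atTop (n := 2)).def (show (0 : ℝ) < 1 / ((K + 1) * M) by positivity)
    filter_upwards [tendsto_natCast_atTop_atTop.eventually h1] with n h2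
    rw [Real.norm_of_nonneg (by positivity), id, Real.norm_of_nonneg (Nat.cast_nonneg n)] at h2
    calc (K + 1) * M * (Real.log n) ^ 2 ≤ (K + 1) * M * (1 / ((K + 1) * M) * n) :=
          mul_le_mul_of_nonneg_left h2 (by positivity)
      _ = n := by field_simp
  have hgap : ∀ᶠ a : ℕ in atTop, ∀ b : ℕ, Consecutive (S i w) a b →
      (b : ℝ) - a ≤ (K + 1) * M * (Real.log a) ^ 2 := by
    filter_upwards [hw, e1, hlog.eventually_ge_atTop 1, eventually_ge_atTop 1] with a g1 g2 g3 g4 b hb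
    obtain ⟨-, -, hb3, hb4⟩ := hb
    set L := Real.log a with hL
    set h := ⌈K * M * L ^ 2⌉₊ with hh
    have hh1 : K * M * L ^ 2 ≤ h := Nat.le_ceil _
    have hh2 : (h : ℝ) ≤ (K + 1) * M * L ^ 2 := by
      have h5 : (h : ℝ) ≤ K * M * L ^ 2 + 1 := (Nat.ceil_lt_add_one (by positivity)).le
      have h6 : 1 ≤ M * L ^ 2 := one_le_mul_of_one_le_of_one_le hM (one_le_pow₀ g3)
      calc (h : ℝ) ≤ K * M * L ^ 2 + 1 := h5
        _ ≤ K * M * L ^ 2 + M * L ^ 2 := by linarith
        _ = _ := by ring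
    have hha : h ≤ a := by
      have : (h : ℝ) ≤ a := hh2.trans g2
      exact_mod_cast this
    have h5 := g1 h hh1 hha
    have h6 : 0 < δ / (K * D ^ 2) * (h / L) := by
      have : (0 : ℝ) < h := lt_of_lt_of_le (by positivity) hh1
      positivity
    have h7 : 0 < Pool.Agent.R526.AD.EE (fun p ω => p + 2 * i p ω) a h w := by
      have := lt_of_lt_of_le h6 h5
      exact_mod_cast this
    unfold Pool.Agent.R526.AD.EE at h7
    obtain ⟨m, hm⟩ := Finset.card_pos.1 h7
    simp only [Finset.mem_filter, Finset.mem_Ioc] at hm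
    have h8 : b ≤ m := by
      by_contra hc
      exact hb4 m hm.1.1 (by omega) hm.2
    have h9 : (b : ℝ) ≤ ((a + h : ℕ) : ℝ) := by exact_mod_cast h8.trans hm.1.2
    push_cast at h9
    linarith
  refine ⟨?_, hgap, ?_⟩
  · filter_upwards [hw] with x hx h hh1 hh2
    refine (hx h hh1 hh2).trans (le_of_eq ?_)
    congr 1
    unfold Pool.Agent.R526.AD.EE
    rw [← Set.ncard_coe_finset]
    congr 1
    ext m
    simp only [Finset.coe_filter, Finset.mem_Ioc, Set.mem_ofPred_eq, S, Set.mem_inter_iff, Set.mem_Ioc]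
    tauto
  · intro ε hε
    have e2 : ∀ᶠ n : ℕ in atTop, (K + 1) * M * (Real.log n) ^ 2 < ε * Real.sqrt n := by
      have h1 := (isLittleO_log_rpow_atTop (show (0 : ℝ) < 1 / 8 by norm_num)).def (show (0 : ℝ) < 1 by norm_num)
      have h2 := (tendsto_rpow_atTop (show (0 : ℝ) < 1 / 4 by norm_num)).eventually_gt_atTop ((K + 1) * M / ε)
      filter_upwards [tendsto_natCast_atTop_atTop.eventually h1, tendsto_natCast_atTop_atTop.eventually h2,
        eventually_ge_atTop 1] with n h3 h4 h5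
      have hn : (1 : ℝ) ≤ n := by exact_mod_cast h5
      have hn0 : (0 : ℝ) < n := by linarith
      have hl : 0 ≤ Real.log n := Real.log_nonneg hn
      rw [Real.norm_of_nonneg hl, Real.norm_of_nonneg (by positivity), one_mul] at h3
      rw [div_lt_iff₀ hε] at h4
      have h6 : (Real.log n) ^ 2 ≤ (n : ℝ) ^ (1 / 4 : ℝ) := by
        calc (Real.log n) ^ 2 ≤ ((n : ℝ) ^ (1 / 8 : ℝ)) ^ 2 := pow_le_pow_left₀ hl h3 2
          _ = (n : ℝ) ^ (1 / 4 : ℝ) := by
              rw [← Real.rpow_natCast, ← Real.rpow_mul hn0.le]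
              norm_num
      have h7 : Real.sqrt n = (n : ℝ) ^ (1 / 4 : ℝ) * (n : ℝ) ^ (1 / 4 : ℝ) := by
        rw [Real.sqrt_eq_rpow, ← Real.rpow_add hn0]
        norm_num
      have h8 : 0 < (n : ℝ) ^ (1 / 4 : ℝ) := by positivity
      calc (K + 1) * M * (Real.log n) ^ 2 ≤ (K + 1) * M * (n : ℝ) ^ (1 / 4 : ℝ) :=
            mul_le_mul_of_nonneg_left h6 (by positivity)
        _ < ((n : ℝ) ^ (1 / 4 : ℝ) * ε) * (n : ℝ) ^ (1 / 4 : ℝ) := mul_lt_mul_of_pos_right h4 h8
        _ = ε * Real.sqrt n := by rw [h7]; ring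
    filter_upwards [hgap, e2, eventually_ge_atTop 1] with a g1 g2 g3 b hb
    have h5 := g1 b hb
    have ha0 : (0 : ℝ) < a := by exact_mod_cast g3
    have hsa : 0 < Real.sqrt a := Real.sqrt_pos.2 ha0
    have hab : (a : ℝ) < b := by exact_mod_cast hb.2.2.1
    have hsab : Real.sqrt a < Real.sqrt b := Real.sqrt_lt_sqrt ha0.le hab
    have h6 : (Real.sqrt b - Real.sqrt a) * Real.sqrt a < ε * Real.sqrt a := by
      calc (Real.sqrt b - Real.sqrt a) * Real.sqrt a ≤ (Real.sqrt b - Real.sqrt a) * (Real.sqrt b + Real.sqrt a) := by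
            apply mul_le_mul_of_nonneg_left _ (by linarith)
            linarith [Real.sqrt_nonneg (b : ℝ)]
        _ = Real.sqrt b ^ 2 - Real.sqrt a ^ 2 := by ring
        _ = b - a := by rw [Real.sq_sqrt (by linarith), Real.sq_sqrt ha0.le]
        _ ≤ (K + 1) * M * (Real.log a) ^ 2 := h5
        _ < ε * Real.sqrt a := g2
    exact lt_of_mul_lt_mul_right h6 hsa.le

end Pool.Agent.Results.MP_82fd4a_nt.AndricaForMovedPrimes
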