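import Mathlib
import Pool.Agent.R320.IT.Andrica

set_option autoImplicit false

/-!
# The integral test for Andrica's differences in random models of the primes

Consider a random set of integers which are decided one after the other, `d n` being the conditional
probability that `n + 1` is chosen given the past.  Suppose that `1 / d n - log n` converges almost
surely, to a possibly random limit `C`, and that `1 / d` varies slowly:
`|1 / d (n + 1) - 1 / d n| ≤ (K / n) (1 / d n)`.  In Cramér's model (`n ≥ 3` is chosen with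
probability `1 / log n`, independently) `d n = 1 / log (n + 1)` and `C = 0`; in the Hawkins random
sieve `C` is a non-degenerate random variable.

Let `f (n) ~ (log n)² / (2 √n)` be ANY threshold of the critical order, and let
`w f n = exp (-2 √n f(n) / log n) / log n`.  The theorem decides, for every such `f`, whether the
Andrica difference `√q - √p` of consecutive chosen integers `p < q` reaches `f(p)` infinitely often:
it does so almost surely if `∑ w f n = ∞`, and then the number of the `p ≤ x` with
`√q - √p ≥ f(p)` is asymptotic to `exp (C - 1 / 2) ∑_{n ≤ x} w f n`; if `∑ w f n < ∞` it almost surely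
happens only finitely often.  For `f(n) = (log n)² / (2 √n)` the number of these `p ≤ x` is
asymptotic to `exp (C - 1 / 2) log log x`.
-/

open MeasureTheory Filter
open scoped Topology

namespace Pool.Agent.Results.MP_82fd4a_nt.IntegralTestRandomModels

/-- the member number `n` of `S` in increasing order (the least member has number `0`) -/
noncomputable def member (S : Set ℕ) (n : ℕ) : ℕ := Nat.nth (· ∈ S) n

/-- the Andrica difference number `n` of `S` -/
noncomputable def diff (S : Set ℕ) (n : ℕ) : ℝ := √(member S (n + 1)) - √(member S n)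

/-- the number of the members `p ≤ x` of `S` whose Andrica difference is at least `f p` -/
noncomputable def large (S : Set ℕ) (f : ℕ → ℝ) (x : ℕ) : ℕ :=
  Set.ncard {n : ℕ | member S n ≤ x ∧ f (member S n) ≤ diff S n}

/-- the terms of the test series -/
noncomputable def w (f : ℕ → ℝ) (n : ℕ) : ℝ := Real.exp (-(2 * √n * f n / Real.log n)) / Real.log n

/-- the conditional probability of `A (n + 1)` given the past `ℱ n` -/
noncomputable def d {Ω : Type} [mΩ : MeasurableSpace Ω] (μ : Measure Ω) (ℱ : Filtration ℕ mΩ)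
    (A : ℕ → Set Ω) (n : ℕ) : Ω → ℝ :=
  μ[(A (n + 1)).indicator (fun _ => (1 : ℝ)) | ℱ n]

end Pool.Agent.Results.MP_82fd4a_nt.IntegralTestRandomModels

open Pool.Agent.Results.MP_82fd4a_nt.IntegralTestRandomModels

/-- Let `A n` be the event that `n` belongs to a random set adapted to a filtration `ℱ`, with
conditional probabilities `d n`.  Suppose that for some constants `K` and `n₀` almost surely
`|1 / d (n + 1) - 1 / d n| ≤ (K / n) |1 / d n|` for all `n ≥ n₀`, and that almost surely
`1 / d n - log n` converges.  Let `2 √n f(n) / (log n)² → 1`.  Then almost surely the random set is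
infinite and, `C` being the limit of `1 / d n - log n`: if `∑ w f n` diverges, the number of
`p ≤ x` with `√q - √p ≥ f(p)` (`q` the member after the member `p`) divided by `∑_{n ≤ x} w f n`
tends to `exp (C - 1 / 2)`; if it converges, `√q - √p < f(p)` for all large `p`; and the number of
`p ≤ x` with `√q - √p ≥ (log p)² / (2 √p)` divided by `log log x` tends to `exp (C - 1 / 2)`. -/
theorem Pool.Agent.Results.MP_82fd4a_nt.IntegralTestRandomModels.result
    {Ω : Type} [mΩ : MeasurableSpace Ω] (μ : Measure Ω) [IsProbabilityMeasure μ]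
    (ℱ : Filtration ℕ mΩ) (A : ℕ → Set Ω) (hA : ∀ n, MeasurableSet[ℱ n] (A n)) (K : ℝ) (n₀ : ℕ)
    (hK : ∀ᵐ ω ∂μ, ∀ n, n₀ ≤ n → |(d μ ℱ A (n + 1) ω)⁻¹ - (d μ ℱ A n ω)⁻¹| ≤ K / n * |(d μ ℱ A n ω)⁻¹|)
    (hC : ∀ᵐ ω ∂μ, ∃ C : ℝ, Tendsto (fun n : ℕ => (d μ ℱ A n ω)⁻¹ - Real.log n) atTop (𝓝 C))
    (f : ℕ → ℝ) (hf : Tendsto (fun n : ℕ => 2 * √n * f n / Real.log n ^ 2) atTop (𝓝 1)) :
    ∀ᵐ ω ∂μ, {k | ω ∈ A k}.Infinite ∧ ∃ C : ℝ,
      Tendsto (fun n : ℕ => (d μ ℱ A n ω)⁻¹ - Real.log n) atTop (𝓝 C) ∧
      (¬ Summable (w f) →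
        Tendsto (fun x : ℕ => (large {k | ω ∈ A k} f x : ℝ) / ∑ n ∈ Finset.range (x + 1), w f n) atTop
          (𝓝 (Real.exp (C - 1 / 2)))) ∧
      (Summable (w f) → ∀ᶠ n in atTop, diff {k | ω ∈ A k} n < f (member {k | ω ∈ A k} n)) ∧
      Tendsto (fun x : ℕ => (large {k | ω ∈ A k} (fun n => Real.log n ^ 2 / (2 * √n)) x : ℝ) /
        Real.log (Real.log x)) atTop (𝓝 (Real.exp (C - 1 / 2))) :=
  Pool.Agent.R320.IT.andrica_all hA K n₀ hK hC hf
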