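import Mathlib
import Pool.Agent.R291.RMW.T4

set_option autoImplicit false

/-!
# Andrica's problem in random models of the primes

Andrica's conjecture says `√p_(n+1) - √p_n < 1` for all `n`.  We determine the exact order of the
largest difference `√q' - √q` of consecutive members `q < q'`, also inside short intervals
`(x, x + x^γ]`, for EVERY sequential random model of the primes: the integers are decided one after
the other, only integers coprime to a fixed `Q` can be chosen, and the conditional probability of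
choosing `n + 1` (coprime to `Q`) given the past is asymptotic to `(Q / φ(Q)) / log n`; no
independence is assumed (for `Q = 1` Cramér's model and the Hawkins random sieve are examples).
-/

open MeasureTheory Filter
open scoped Topology

namespace Pool.Agent.Results.MP_82fd4a_nt.SquareRootGapsShortIntervals

/-- `q < q'` are consecutive elements of `S` -/
def Consecutive (S : Set ℕ) (q q' : ℕ) : Prop := q ∈ S ∧ q' ∈ S ∧ q < q' ∧ ∀ m, q < m → m < q' → m ∉ S

end Pool.Agent.Results.MP_82fd4a_nt.SquareRootGapsShortIntervals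

open Pool.Agent.Results.MP_82fd4a_nt.SquareRootGapsShortIntervals Pool.Agent.R528.RM Pool.Agent.R291.RMW

/-- Let `A n` be the event that `n` belongs to a random set `S` adapted to a filtration `ℱ`, let
`Q ≥ 1`, let no integer which is not coprime to `Q` be chosen, and let the conditional probability of
`A (n + 1)` given `ℱ n`, times `log n`, tend to `Q / φ(Q)` along the `n` with `n + 1` coprime to `Q`,
almost surely.
(1) Almost surely, for every `ε > 0` and all large consecutive elements `q < q'` of `S`: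
`√q' - √q ≤ (1 + ε) (log q)² / (2 √q)`; in particular `√q' - √q < 1`.
(2) For all `0 < γ < 1` and `ε > 0`, almost surely, for all large `x` there are consecutive elements
`q < q'` of `S` with `x < q`, `q' ≤ x + x^γ` and `√q' - √q ≥ (γ - ε) (log q)² / (2 √q)`.
(3) For all `0 < γ ≤ 1` and `ε > 0`, almost surely, for all large `j`, all consecutive elements
`q < q'` of `S` with `2^j < q ≤ 2^j + (2^j)^γ` satisfy `√q' - √q ≤ (γ + ε) (log q)² / (2 √q)`. -/
theorem Pool.Agent.Results.MP_82fd4a_nt.SquareRootGapsShortIntervals.result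
    {Ω : Type} [mΩ : MeasurableSpace Ω] (μ : Measure Ω) [IsProbabilityMeasure μ]
    (ℱ : Filtration ℕ mΩ) (A : ℕ → Set Ω) (hA : ∀ n, MeasurableSet[ℱ n] (A n))
    (Q : ℕ) (hQ : 0 < Q) (hcop : ∀ n, ¬ Nat.Coprime n Q → A n = ∅)
    (hd : ∀ᵐ ω ∂μ, Tendsto (fun n : ℕ =>
      (μ[(A (n + 1)).indicator (fun _ => (1 : ℝ)) | ℱ n]) ω * Real.log n)
      (atTop ⊓ 𝓟 {n : ℕ | Nat.Coprime (n + 1) Q}) (𝓝 ((Q : ℝ) / Nat.totient Q))) :
    (∀ᵐ ω ∂μ,
      (∀ ε : ℝ, 0 < ε → ∀ᶠ q : ℕ in atTop, ∀ q', Consecutive {k | ω ∈ A k} q q' →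
        √(q' : ℝ) - √(q : ℝ) ≤ (1 + ε) * (Real.log q ^ 2 / (2 * √(q : ℝ)))) ∧
      (∀ᶠ q : ℕ in atTop, ∀ q', Consecutive {k | ω ∈ A k} q q' → √(q' : ℝ) - √(q : ℝ) < 1)) ∧
    (∀ γ ε : ℝ, 0 < γ → γ < 1 → 0 < ε → ∀ᵐ ω ∂μ, ∀ᶠ x : ℕ in atTop, ∃ q q' : ℕ,
      Consecutive {k | ω ∈ A k} q q' ∧ x < q ∧ (q' : ℝ) ≤ x + (x : ℝ) ^ γ ∧
        (γ - ε) * (Real.log q ^ 2 / (2 * √(q : ℝ))) ≤ √(q' : ℝ) - √(q : ℝ)) ∧
    (∀ γ ε : ℝ, 0 < γ → γ ≤ 1 → 0 < ε → ∀ᵐ ω ∂μ, ∀ᶠ j : ℕ in atTop, ∀ q q' : ℕ,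
      Consecutive {k | ω ∈ A k} q q' → 2 ^ j < q → (q : ℝ) ≤ (2 : ℝ) ^ j + ((2 : ℝ) ^ j) ^ γ →
        √(q' : ℝ) - √(q : ℝ) ≤ (γ + ε) * (Real.log q ^ 2 / (2 * √(q : ℝ)))) := by
  have hprof := Pool.Agent.R528.RM.dens_profile (μ := μ) (ℱ := ℱ) hA Q hQ hcop hd
  have hcons : ∀ (ω : Ω) (q q' : ℕ), Consecutive {k | ω ∈ A k} q q' ↔ Cons {k | ω ∈ A k} q q' := fun _ _ _ => Iff.rfl
  refine ⟨?_, ?_, ?_⟩
  · filter_upwards [cons_upper (μ := μ) (ℱ := ℱ) hA hQ hprof] with ω hω
    have h1 : ∀ ε : ℝ, 0 < ε → ∀ᶠ q : ℕ in atTop, ∀ q', Consecutive {k | ω ∈ A k} q q' →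
        √(q' : ℝ) - √(q : ℝ) ≤ (1 + ε) * (Real.log q ^ 2 / (2 * √(q : ℝ))) := by
      intro ε hε
      filter_upwards [hω (1 + ε) (by linarith), eventually_gt_atTop 0] with q g1 g2 q' hq'
      have hq0 : (0 : ℝ) < q := by exact_mod_cast g2
      have h2 := g1.2 q' hq'
      refine (sqrt_upper g2 hq'.2.2.1).trans ?_
      rw [mul_div_assoc']
      apply div_le_div_of_nonneg_right _ (by positivity)
      linarith
    refine ⟨h1, ?_⟩
    have h3 : ∀ᶠ x : ℝ in atTop, 4 * Real.log x ^ 2 ≤ x / 2 := by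
      have h3 := (Real.isLittleO_pow_log_id_atTop (n := 2)).def (show (0 : ℝ) < 1 / 8 by norm_num)
      filter_upwards [h3, eventually_ge_atTop 1] with x h3 h6
      rw [Real.norm_of_nonneg (by positivity), id, Real.norm_of_nonneg (by linarith)] at h3
      linarith
    have h4 : Tendsto (fun q : ℕ => √(q : ℝ)) atTop atTop := Real.tendsto_sqrt_atTop.comp tendsto_natCast_atTop_atTop
    filter_upwards [h1 1 one_pos, h4.eventually h3, eventually_gt_atTop 0] with q g1 g2 g3 q' hq'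
    have hq0 : (0 : ℝ) < q := by exact_mod_cast g3
    have hs : 0 < √(q : ℝ) := Real.sqrt_pos.2 hq0
    have h5 : Real.log (√(q : ℝ)) = Real.log q / 2 := Real.log_sqrt hq0.le
    rw [h5] at g2
    refine lt_of_le_of_lt (g1 q' hq') ?_
    rw [mul_div_assoc', div_lt_one (by positivity)]
    nlinarith
  · intro γ ε hγ0 hγ1 hε
    set c : ℝ := max (γ - ε / 2) (γ / 2) with hc
    have hc0 : 0 < c := lt_of_lt_of_le (by positivity) (le_max_right _ _)
    have hcγ : c < γ := max_lt (by linarith) (by linarith)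
    have hc1 : γ - ε / 2 ≤ c := le_max_left _ _
    set η : ℝ := min (ε / 12) 1 with hη
    have hη0 : 0 < η := lt_min (by positivity) one_pos
    have hη1 : η ≤ 1 := min_le_right _ _
    have hη2 : 12 * η ≤ ε := by
      have : η ≤ ε / 12 := min_le_left _ _
      linarith
    filter_upwards [cons_lower (μ := μ) (ℱ := ℱ) hA hQ hprof hc0 hcγ hγ1] with ω hω
    filter_upwards [hω, ev_log (6 / η), eventually_ge_atTop 1, ev_pow hγ1 (1 / η)] with x ⟨q, q', hq, hq1, hq2, hq3⟩ g1 g2 g3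
    refine ⟨q, q', hq, hq1, hq2, ?_⟩
    have hx1 : (1 : ℝ) ≤ x := by exact_mod_cast g2
    have hxp : (0 : ℝ) < x := by linarith
    set L := Real.log (x : ℝ) with hL
    have hL0 : 0 < L := lt_of_lt_of_le (by positivity) g1
    have hγη : (x : ℝ) ^ γ ≤ η * x := by
      rw [Real.rpow_one] at g3
      have h1 : 1 / η * 1 * (x : ℝ) ^ γ ≤ 1 / η * (L + 1) * (x : ℝ) ^ γ := by
        apply mul_le_mul_of_nonneg_right _ (by positivity)
        apply mul_le_mul_of_nonneg_left (by linarith) (by positivity)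
      have h2 : 1 / η * (x : ℝ) ^ γ ≤ x := by linarith
      rw [div_mul_eq_mul_div, one_mul, div_le_iff₀ hη0] at h2
      linarith
    have hq1' : (x : ℝ) < q := by exact_mod_cast hq1
    have hqp : 0 < q := by omega
    have hq0 : (0 : ℝ) < q := by linarith
    have hqq' : (q : ℝ) < q' := by exact_mod_cast hq.2.2.1
    have hlq : Real.log (q : ℝ) ≤ L + 1 := by
      have h5 : (q : ℝ) ≤ 2 * x := by nlinarith
      have h6 := Real.log_le_log (by linarith) h5
      rw [Real.log_mul (by norm_num) (by linarith)] at h6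
      have := Real.log_two_lt_d9
      linarith
    have hlq0 : 0 ≤ Real.log (q : ℝ) := Real.log_natCast_nonneg q
    have h8 : Real.log (q : ℝ) ^ 2 ≤ (L + 1) ^ 2 := pow_le_pow_left₀ hlq0 hlq 2
    have h9 : (L + 1) ^ 2 ≤ (1 + η) * L ^ 2 := by
      rw [div_le_iff₀ hη0] at g1
      have hL1 : 1 ≤ L := by nlinarith
      nlinarith
    have h10 := sqrt_lower hη0.le hqp hq.2.2.1 (by nlinarith)
    have hs : 0 < √(q : ℝ) := Real.sqrt_pos.2 hq0
    have hsd : 0 ≤ √(q' : ℝ) - √(q : ℝ) := by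
      have := Real.sqrt_le_sqrt hqq'.le
      linarith
    rcases le_or_gt (γ - ε) 0 with hneg | hpos
    · refine le_trans ?_ hsd
      exact mul_nonpos_of_nonpos_of_nonneg hneg (by positivity)
    · have h11 : c * Real.log (q : ℝ) ^ 2 ≤ (1 + η) * ((q' : ℝ) - q) := by
        have e1 := mul_le_mul_of_nonneg_left (h8.trans h9) hc0.le
        have e2 := mul_le_mul_of_nonneg_left hq3.le (show 0 ≤ 1 + η by linarith)
        linarith
      have h12 : c * (Real.log (q : ℝ) ^ 2 / (2 * √(q : ℝ))) ≤ (1 + η) * ((1 + η) * (√(q' : ℝ) - √(q : ℝ))) := by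
        refine le_trans ?_ (mul_le_mul_of_nonneg_left h10 (show 0 ≤ 1 + η by linarith))
        rw [mul_div_assoc', mul_div_assoc']
        exact div_le_div_of_nonneg_right h11 (by positivity)
      have h13 : (γ - ε) * ((1 + η) * (1 + η)) ≤ c := by
        have e1 : (1 + η) * (1 + η) ≤ 1 + 3 * η := by nlinarith
        have e2 := mul_le_mul_of_nonneg_left e1 hpos.le
        have e3 : (γ - ε) * (3 * η) ≤ 1 * (3 * η) := mul_le_mul_of_nonneg_right (by linarith) (by positivity)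
        linarith only [e2, e3, hc1, hη2, hη0]
      have h14 : 0 ≤ Real.log (q : ℝ) ^ 2 / (2 * √(q : ℝ)) := by positivity
      have h15 : (γ - ε) * ((1 + η) * (1 + η)) * (Real.log (q : ℝ) ^ 2 / (2 * √(q : ℝ))) ≤
          c * (Real.log (q : ℝ) ^ 2 / (2 * √(q : ℝ))) := mul_le_mul_of_nonneg_right h13 h14
      have h16 : 0 < (1 + η) * (1 + η) := by positivity
      have h17 : ((1 + η) * (1 + η)) * ((γ - ε) * (Real.log (q : ℝ) ^ 2 / (2 * √(q : ℝ)))) ≤
          ((1 + η) * (1 + η)) * (√(q' : ℝ) - √(q : ℝ)) := by linarith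
      exact le_of_mul_le_mul_left h17 h16
  · intro γ ε hγ0 hγ1 hε
    filter_upwards [short_upper (μ := μ) (ℱ := ℱ) hA hQ hprof hγ0 hγ1 (show γ < γ + ε by linarith)] with ω hω
    filter_upwards [hω] with j hj q q' hq hq1 hq2
    have hqp : 0 < q := lt_of_le_of_lt (Nat.zero_le _) hq1
    have hq0 : (0 : ℝ) < q := by exact_mod_cast hqp
    have h1 := cons_le hq (hj q hq1 hq2)
    have h2 : ((⌊(γ + ε) * (j * Real.log 2) ^ 2⌋₊ : ℕ) : ℝ) ≤ (γ + ε) * (j * Real.log 2) ^ 2 := Nat.floor_le (by positivity)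
    have h3 : (q' : ℝ) ≤ q + (⌊(γ + ε) * (j * Real.log 2) ^ 2⌋₊ : ℕ) := by exact_mod_cast h1
    have h4 : (j : ℝ) * Real.log 2 ≤ Real.log q := by
      have h5 : Real.log ((2 ^ j : ℕ) : ℝ) ≤ Real.log q := Real.log_le_log (by positivity) (by exact_mod_cast hq1.le)
      push_cast at h5
      rwa [Real.log_pow] at h5
    have h5 : ((j : ℝ) * Real.log 2) ^ 2 ≤ Real.log q ^ 2 := by
      apply pow_le_pow_left₀ _ h4
      have : 0 < Real.log 2 := Real.log_pos (by norm_num)
      positivity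
    have h6 := mul_le_mul_of_nonneg_left h5 (show 0 ≤ γ + ε by linarith)
    refine (sqrt_upper hqp hq.2.2.1).trans ?_
    rw [mul_div_assoc']
    apply div_le_div_of_nonneg_right _ (by positivity)
    linarith
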